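import Mathlib

/-!
# Odd-cycle-different Hamiltonian paths (MP_e797aa_co)

For every `k ≥ 1` the largest size `M k n` of a family of Hamiltonian paths on `[n]`, any two
distinct members of which have a cycle `C_{2k+1}` in their union, satisfies
`M k n = 2 ^ (n + o(n))`.

The construction: a comb with `b` teeth is a sequence of `b` vertices placed at consecutive
distances two.  Blocks are built recursively.  A block of the next level consists of `4ℓ` blocks
of the previous level; for each comb index the `4ℓ` combs are grouped in `2ℓ` pairs; `ℓ` of the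
pairs (an arbitrary `ℓ`-subset, this is the choice) are put, with distance `2k-1` between the last
tooth of the left comb and the first tooth of the right comb, in a cluster of two interleaved
tracks, each of these copies (except the first one) in one of two orientations (a further choice),
and the other pairs are concatenated to combs with `2b` teeth.
-/

open SimpleGraph

namespace Pool.Agent.Results.MP_e797aa_co.OddCycleHam


/-- The graph on `W` in which two vertices are adjacent when their positions differ by one. -/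
def pg {W : Type} (pos : W → ℤ) : SimpleGraph W where
  Adj u v := pos v = pos u + 1 ∨ pos u = pos v + 1
  symm := by
    constructor
    intro u v h
    exact h.symm
  loopless := by
    constructor
    intro u h
    rcases h with h | h <;> omega

/-- A position function is good when it is injective and its image is an interval. -/
def Good {W : Type} (pos : W → ℤ) : Prop :=
  Function.Injective pos ∧ ∀ u v : W, ∀ z : ℤ, pos u ≤ z → z ≤ pos v → ∃ w, pos w = z

/-- The union of the two paths contains a cycle of length `2k+1`. -/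
def Cyc {W : Type} (k : ℕ) (pos pos' : W → ℤ) : Prop :=
  (cycleGraph (2 * k + 1)) ⊑ (pg pos ⊔ pg pos')

lemma contained_of_cyclic {W : Type} (G : SimpleGraph W) (n : ℕ) (hn : 2 ≤ n) (φ : ℕ → W)
    (hinj : ∀ i j, i < n → j < n → φ i = φ j → i = j)
    (hadj : ∀ i, i + 1 < n → G.Adj (φ i) (φ (i + 1)))
    (hlast : G.Adj (φ (n - 1)) (φ 0)) : cycleGraph n ⊑ G := by
  have key : ∀ u v : Fin n, (u - v).val = 1 → G.Adj (φ v) (φ u) := by
    intro u v h
    rcases Nat.lt_or_ge u.val v.val with hlt | hge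
    · have h1 : (u - v).val = n - (v.val - u.val) := by
        rw [Fin.coe_sub_iff_lt.2 hlt]
        omega
      have h2 : v.val = n - 1 := by
        have := v.isLt
        have := u.isLt
        omega
      have h3 : u.val = 0 := by
        have := u.isLt
        omega
      rw [h2, h3]
      exact hlast
    · have h1 : (u - v).val = u.val - v.val := Fin.coe_sub_iff_le.2 hge
      have h2 : u.val = v.val + 1 := by omega
      rw [h2]
      apply hadj
      have := u.isLt
      omega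
  refine ⟨⟨⟨fun i => φ i, ?_⟩, ?_⟩⟩
  · intro u v h
    rw [cycleGraph_adj'] at h
    rcases h with h | h
    · exact (key u v h).symm
    · exact key v u h
  · intro i j h
    exact Fin.ext (hinj i j i.isLt j.isLt h)

lemma cyc_gen {W : Type} (k : ℕ) (hk : 1 ≤ k) (pos : W → ℤ) (hg : Good pos) (H : SimpleGraph W)
    (hH : pg pos ≤ H) (u v m : W) (huv : pos v = pos u + (2 * k - 1))
    (hm : pos m < pos u ∨ pos v < pos m) (hA : H.Adj v m) (hB : H.Adj m u) :
    cycleGraph (2 * k + 1) ⊑ H := by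
  classical
  have hex : ∀ t : ℕ, t < 2 * k → ∃ w, pos w = pos u + t := by
    intro t ht
    apply hg.2 u v
    · omega
    · omega
  have : Nonempty W := ⟨u⟩
  choose! g hgt using hex
  set φ : ℕ → W := fun t => if t < 2 * k then g t else m with hφ
  have hφ1 : ∀ t, t < 2 * k → φ t = g t := by
    intro t ht
    simp [hφ, ht]
  have hφ2 : φ (2 * k) = m := by
    simp [hφ]
  have hg0 : g 0 = u := by
    apply hg.1
    have := hgt 0 (by omega)
    simpa using this
  have hgl : g (2 * k - 1) = v := by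
    apply hg.1
    have := hgt (2 * k - 1) (by omega)
    rw [this, huv]
    omega
  apply contained_of_cyclic H (2 * k + 1) (by omega) φ
  · intro i j hi hj hij
    rcases Nat.lt_or_ge i (2 * k) with h1 | h1
    · rcases Nat.lt_or_ge j (2 * k) with h2 | h2
      · rw [hφ1 i h1, hφ1 j h2] at hij
        have e1 := hgt i h1
        have e2 := hgt j h2
        rw [hij] at e1
        omega
      · have : j = 2 * k := by omega
        subst this
        rw [hφ1 i h1, hφ2] at hij
        have e1 := hgt i h1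
        rw [hij] at e1
        omega
    · have : i = 2 * k := by omega
      subst this
      rcases Nat.lt_or_ge j (2 * k) with h2 | h2
      · rw [hφ1 j h2, hφ2] at hij
        have e1 := hgt j h2
        rw [← hij] at e1
        omega
      · omega
  · intro i hi
    rcases Nat.lt_or_ge (i + 1) (2 * k) with h1 | h1
    · rw [hφ1 i (by omega), hφ1 (i + 1) h1]
      apply hH
      left
      rw [hgt i (by omega), hgt (i + 1) h1]
      push_cast
      ring
    · have h2 : i + 1 = 2 * k := by omega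
      have h3 : i = 2 * k - 1 := by omega
      rw [h2, hφ2, hφ1 i (by omega), h3, hgl]
      exact hA
  · have : 2 * k + 1 - 1 = 2 * k := by omega
    rw [this, hφ2, hφ1 0 (by omega), hg0]
    exact hB

/-- distance `2k` in one path and distance `1` in the other one. -/
lemma cyc1 {W : Type} (k : ℕ) (hk : 1 ≤ k) (pos pos' : W → ℤ) (hg : Good pos) (u v : W)
    (huv : pos v = pos u + 2 * k) (hadj : pos' v = pos' u + 1 ∨ pos' u = pos' v + 1) :
    Cyc k pos pos' := by
  obtain ⟨w, hw⟩ := hg.2 u v (pos u + (2 * k - 1)) (by omega) (by omega)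
  apply cyc_gen k hk pos hg _ le_sup_left u w v hw (by omega)
  · left
    left
    omega
  · right
    exact hadj.symm

/-- distance `2k-1` in one path and distance `2` in the other one. -/
lemma cyc2 {W : Type} (k : ℕ) (hk : 1 ≤ k) (pos pos' : W → ℤ) (hg : Good pos) (u v m : W)
    (huv : pos v = pos u + (2 * k - 1)) (hm : pos m < pos u ∨ pos v < pos m)
    (h1 : (pg pos').Adj v m) (h2 : (pg pos').Adj m u) :
    Cyc k pos pos' :=
  cyc_gen k hk pos hg _ le_sup_left u v m huv hm (Or.inr h1) (Or.inr h2)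

lemma Cyc.symm {W : Type} {k : ℕ} {pos pos' : W → ℤ} (h : Cyc k pos pos') : Cyc k pos' pos := by
  unfold Cyc at *
  rwa [sup_comm]



/-- contents of the cells of a cluster: copy `c`, part (`false` for the left comb, `true` for the
right comb), tooth; or filler (track, index). -/
abbrev Cont (ℓ b h : ℕ) : Type := (Fin ℓ × Bool × Fin b) ⊕ (Bool × Fin h)

/-- index of a content inside the cluster word. -/
def posn {ℓ b h : ℕ} (o : Fin ℓ → Bool) : Cont ℓ b h → ℕ
  | Sum.inl (c, q, t) =>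
    if xor q (o c) then 2 * (h + b * c + (if o c then b - 1 - t else t)) + 1
    else 2 * (b * c + (if o c then b - 1 - t else t))
  | Sum.inr (q, u) => if q then 2 * u + 1 else 2 * (b * ℓ + u)

lemma mul_add_lt {ℓ b : ℕ} (c : Fin ℓ) {t : ℕ} (ht : t < b) : b * c + t < b * ℓ := by
  have h1 : (c : ℕ) + 1 ≤ ℓ := c.isLt
  have h2 : b * ((c : ℕ) + 1) ≤ b * ℓ := Nat.mul_le_mul_left b h1
  rw [Nat.mul_add, Nat.mul_one] at h2
  omega

lemma mul_add_inj {b c c' t t' : ℕ} (ht : t < b) (ht' : t' < b) (h : b * c + t = b * c' + t') :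
    c = c' ∧ t = t' := by
  have hb : 0 < b := by omega
  have h1 : (b * c + t) / b = c := by
    rw [Nat.mul_add_div hb, Nat.div_eq_of_lt ht, Nat.add_zero]
  have h2 : (b * c' + t') / b = c' := by
    rw [Nat.mul_add_div hb, Nat.div_eq_of_lt ht', Nat.add_zero]
  have h3 : c = c' := by rw [← h1, ← h2, h]
  subst h3
  exact ⟨rfl, by omega⟩

lemma posn_lt {ℓ b h : ℕ} (o : Fin ℓ → Bool) (z : Cont ℓ b h) : posn o z < 2 * (b * ℓ + h) := by
  rcases z with ⟨c, q, t⟩ | ⟨q, u⟩
  · have ht := t.isLt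
    have h0 : (if o c then b - 1 - (t : ℕ) else t) < b := by split_ifs <;> omega
    have h1 := mul_add_lt c h0
    simp only [posn]
    split_ifs at * <;> omega
  · have := u.isLt
    simp only [posn]
    split_ifs <;> omega

lemma posn_inj {ℓ b h : ℕ} (o : Fin ℓ → Bool) : Function.Injective (posn (h := h) (b := b) o) := by
  intro z z' hz
  rcases z with ⟨c, q, t⟩ | ⟨q, u⟩
  · have ht := t.isLt
    have h0 : (if o c then b - 1 - (t : ℕ) else t) < b := by split_ifs <;> omega
    have h1 := mul_add_lt c h0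
    rcases z' with ⟨c', q', t'⟩ | ⟨q', u'⟩
    · have ht' := t'.isLt
      have h0' : (if o c' then b - 1 - (t' : ℕ) else t') < b := by split_ifs <;> omega
      simp only [posn] at hz
      have hx : xor q (o c) = xor q' (o c') := by
        by_cases e1 : xor q (o c) = true <;> by_cases e2 : xor q' (o c') = true
        · rw [e1, e2]
        · rw [if_pos e1, if_neg e2] at hz; omega
        · rw [if_neg e1, if_pos e2] at hz; omega
        · simp only [Bool.not_eq_true] at e1 e2
          rw [e1, e2]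
      have hy : b * (c : ℕ) + (if o c then b - 1 - (t : ℕ) else t)
          = b * (c' : ℕ) + (if o c' then b - 1 - (t' : ℕ) else t') := by
        by_cases e1 : xor q (o c) = true
        · have e2 : xor q' (o c') = true := by rw [← hx, e1]
          rw [if_pos e1, if_pos e2] at hz; omega
        · have e2 : ¬ xor q' (o c') = true := by rw [← hx]; exact e1
          rw [if_neg e1, if_neg e2] at hz; omega
      obtain ⟨h2, h3⟩ := mul_add_inj h0 h0' hy
      have h4 : c = c' := Fin.ext h2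
      subst h4
      have h5 : q = q' := by
        revert hx
        cases q <;> cases q' <;> cases o c <;> simp
      subst h5
      have h6 : t = t' := by
        apply Fin.ext
        split_ifs at h3 <;> omega
      subst h6
      rfl
    · have := u'.isLt
      simp only [posn] at hz
      generalize (if o c = true then b - 1 - (t : ℕ) else (t : ℕ)) = τ at *
      split_ifs at hz <;> omega
  · have := u.isLt
    rcases z' with ⟨c', q', t'⟩ | ⟨q', u'⟩
    · have ht := t'.isLt
      have h0 : (if o c' then b - 1 - (t' : ℕ) else t') < b := by split_ifs <;> omega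
      have h1 := mul_add_lt c' h0
      simp only [posn] at hz
      generalize (if o c' = true then b - 1 - (t' : ℕ) else (t' : ℕ)) = τ at *
      split_ifs at hz <;> omega
    · simp only [posn] at hz
      cases q <;> cases q' <;> simp at hz
      · have : u = u' := Fin.ext hz
        rw [this]
      · omega
      · omega
      · have : u = u' := Fin.ext hz
        rw [this]

lemma card_cont (ℓ b h : ℕ) : Fintype.card (Cont ℓ b h) = Fintype.card (Fin (2 * (b * ℓ + h))) := by
  simp [Cont]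
  ring

/-- contents of the cells as an equivalence. -/
noncomputable def clus {ℓ b h : ℕ} (o : Fin ℓ → Bool) : Cont ℓ b h ≃ Fin (2 * (b * ℓ + h)) :=
  Equiv.ofBijective (fun z => ⟨posn o z, posn_lt o z⟩) (by
    rw [Fintype.bijective_iff_injective_and_card]
    refine ⟨?_, card_cont ℓ b h⟩
    intro z z' hz
    exact posn_inj o (congrArg Fin.val hz))

lemma clus_val {ℓ b h : ℕ} (o : Fin ℓ → Bool) (z : Cont ℓ b h) : (clus o z).val = posn o z := rfl

/-- the teeth of a comb in a cluster. -/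
lemma posn_comb {ℓ b h : ℕ} (o : Fin ℓ → Bool) (c : Fin ℓ) (q : Bool) :
    ∃ p ε : ℤ, (ε = 1 ∨ ε = -1) ∧
      (∀ t : Fin b, (posn (h := h) o (Sum.inl (c, q, t)) : ℤ) = p + ε * (2 * (t : ℕ))) ∧
      (∀ t : ℕ, t + 1 < b → 0 ≤ p + ε * (2 * t + 1) ∧ p + ε * (2 * t + 1) < 2 * (b * ℓ + h) ∧
        ∀ t' : Fin b, (posn (h := h) o (Sum.inl (c, q, t')) : ℤ) ≠ p + ε * (2 * t + 1)) := by
  have hb : ∀ t : ℕ, t < b → ((b * c + t : ℕ) : ℤ) < ((b * ℓ : ℕ) : ℤ) := by
    intro t ht
    exact_mod_cast mul_add_lt c ht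
  have hb0 : (0 : ℤ) ≤ ((b * c : ℕ) : ℤ) := by positivity
  by_cases ho : o c = true
  · by_cases hx : xor q (o c) = true
    · refine ⟨2 * (h + ((b * c : ℕ) : ℤ) + (b - 1)) + 1, -1, Or.inr rfl, ?_, ?_⟩
      · intro t
        have := t.isLt
        simp only [posn, if_pos ho, if_pos hx]
        omega
      · intro t ht
        have h1 := hb (b - 1 - t) (by omega)
        refine ⟨?_, ?_, ?_⟩
        · omega
        · push_cast at h1 ⊢
          omega
        · intro t'
          have := t'.isLt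
          simp only [posn, if_pos ho, if_pos hx]
          omega
    · refine ⟨2 * (((b * c : ℕ) : ℤ) + (b - 1)), -1, Or.inr rfl, ?_, ?_⟩
      · intro t
        have := t.isLt
        simp only [posn, if_pos ho, if_neg hx]
        omega
      · intro t ht
        have h1 := hb (b - 1 - t) (by omega)
        refine ⟨?_, ?_, ?_⟩
        · omega
        · push_cast at h1 ⊢
          omega
        · intro t'
          have := t'.isLt
          simp only [posn, if_pos ho, if_neg hx]
          omega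
  · by_cases hx : xor q (o c) = true
    · refine ⟨2 * (h + ((b * c : ℕ) : ℤ)) + 1, 1, Or.inl rfl, ?_, ?_⟩
      · intro t
        have := t.isLt
        simp only [posn, if_neg ho, if_pos hx]
        omega
      · intro t ht
        have h1 := hb (t + 1) (by omega)
        refine ⟨?_, ?_, ?_⟩
        · omega
        · push_cast at h1 ⊢
          omega
        · intro t'
          have := t'.isLt
          simp only [posn, if_neg ho, if_pos hx]
          omega
    · refine ⟨2 * (((b * c : ℕ) : ℤ)), 1, Or.inl rfl, ?_, ?_⟩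
      · intro t
        have := t.isLt
        simp only [posn, if_neg ho, if_neg hx]
        omega
      · intro t ht
        have h1 := hb (t + 1) (by omega)
        refine ⟨?_, ?_, ?_⟩
        · omega
        · push_cast at h1 ⊢
          omega
        · intro t'
          have := t'.isLt
          simp only [posn, if_neg ho, if_neg hx]
          omega

/-- distance between the last tooth of the left comb and the first tooth of the right comb. -/
lemma posn_dist {ℓ b h k : ℕ} (hb : 1 ≤ b) (hh : h + 2 = b + k) (o : Fin ℓ → Bool) (c : Fin ℓ) :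
    (posn (h := h) o (Sum.inl (c, true, (⟨0, by omega⟩ : Fin b))) : ℤ)
        = posn (h := h) o (Sum.inl (c, false, (⟨b - 1, by omega⟩ : Fin b))) + (2 * k - 1) ∨
    (posn (h := h) o (Sum.inl (c, false, (⟨b - 1, by omega⟩ : Fin b))) : ℤ)
        = posn (h := h) o (Sum.inl (c, true, (⟨0, by omega⟩ : Fin b))) + (2 * k - 1) := by
  by_cases ho : o c = true
  · right
    simp [posn, ho]
    omega
  · left
    simp [posn, ho]
    omega

/-- the two positions of the last tooth of the left comb relative to an already known cell. -/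
lemma posn_orient {ℓ b h k : ℕ} (hb : 1 ≤ b) (hk : 1 ≤ k) (hh : h + 2 = b + k)
    (o o' : Fin ℓ → Bool) (c : Fin ℓ)
    (hc : 1 ≤ (c : ℕ)) (heq : ∀ d : Fin ℓ, (d : ℕ) < c → o d = o' d) (h1 : o c = false)
    (h2 : o' c = true) :
    ∃ z : Cont ℓ b h, posn o z = posn o' z ∧
      posn (h := h) o (Sum.inl (c, false, (⟨b - 1, by omega⟩ : Fin b))) = posn o z + 1 ∧
      posn (h := h) o' (Sum.inl (c, false, (⟨b - 1, by omega⟩ : Fin b))) = posn o z + 2 * k := by
  have hbc : b ≤ b * c := Nat.le_mul_of_pos_right b hc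
  have main : ∃ z : Cont ℓ b h, posn o z = posn o' z ∧ posn o z = 2 * (b * c + b - 2) + 1 := by
    rcases Nat.lt_or_ge (b * c + b - 2) h with hlt | hge
    · refine ⟨Sum.inr (true, ⟨b * c + b - 2, hlt⟩), ?_, ?_⟩
      · simp [posn]
      · simp [posn]
    · have hu : h + (b * c - k) = b * c + b - 2 := by omega
      have hkc : k ≤ b * c := by omega
      set w := b * c - k with hw
      have hw1 : w < b * c := by omega
      have hdiv : w / b < c := by
        rw [Nat.div_lt_iff_lt_mul (by omega)]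
        rw [mul_comm]
        exact hw1
      have hmod : w % b < b := Nat.mod_lt _ (by omega)
      have hdm : b * (w / b) + w % b = w := Nat.div_add_mod w b
      obtain ⟨d, hd⟩ : ∃ d : Fin ℓ, (d : ℕ) = w / b := ⟨⟨w / b, by have := c.isLt; omega⟩, rfl⟩
      rw [← hd] at hdm
      have hod : o d = o' d := heq d (by rw [hd]; exact hdiv)
      by_cases hod' : o d = true
      · have hod2 : o' d = true := by rw [← hod]; exact hod'
        refine ⟨Sum.inl (d, false, ⟨b - 1 - w % b, by omega⟩), ?_, ?_⟩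
        · simp [posn, hod', hod2]
        · simp [posn, hod']
          omega
      · have hod3 : o d = false := by simpa using hod'
        have hod2 : o' d = false := by rw [← hod]; exact hod3
        refine ⟨Sum.inl (d, true, ⟨w % b, hmod⟩), ?_, ?_⟩
        · simp [posn, hod3, hod2]
        · simp [posn, hod3]
          omega
  obtain ⟨z, hz1, hz2⟩ := main
  refine ⟨z, hz1, ?_, ?_⟩
  · rw [hz2]
    simp [posn, h1]
    omega
  · rw [hz2]
    simp [posn, h2]
    omega


/-- chosen bijection attached to an `ℓ`-subset of `Fin (2ℓ)`: the left half is mapped onto the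
subset. -/
lemma exists_eX {ℓ : ℕ} (X : Finset (Fin (2 * ℓ))) (hX : X.card = ℓ) :
    ∃ e : Fin ℓ ⊕ Fin ℓ ≃ Fin (2 * ℓ), (∀ c, e (Sum.inl c) ∈ X) ∧ ∀ c, e (Sum.inr c) ∉ X := by
  classical
  have h1 : Fintype.card {a // a ∈ X} = ℓ := by simp [hX]
  have h2 : Fintype.card {a // a ∉ X} = ℓ := by
    rw [Fintype.card_subtype_compl, h1]
    simp
    omega
  refine ⟨(Equiv.sumCongr (Fintype.equivFinOfCardEq h1).symm
    (Fintype.equivFinOfCardEq h2).symm).trans (Equiv.sumCompl (fun a => a ∈ X)), ?_, ?_⟩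
  · intro c
    simp
  · intro c
    simp
    exact ((Fintype.equivFinOfCardEq h2).symm c).2

/-- the set of all `ℓ`-subsets of `Fin (2ℓ)`. -/
abbrev Sub (ℓ : ℕ) : Type := {X : Finset (Fin (2 * ℓ)) // X.card = ℓ}

noncomputable def eX {ℓ : ℕ} (X : Sub ℓ) : Fin ℓ ⊕ Fin ℓ ≃ Fin (2 * ℓ) :=
  (exists_eX X.1 X.2).choose

lemma eX_inl {ℓ : ℕ} (X : Sub ℓ) (c : Fin ℓ) : eX X (Sum.inl c) ∈ X.1 :=
  (exists_eX X.1 X.2).choose_spec.1 c

lemma eX_inr {ℓ : ℕ} (X : Sub ℓ) (c : Fin ℓ) : eX X (Sum.inr c) ∉ X.1 :=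
  (exists_eX X.1 X.2).choose_spec.2 c

/-- numbering of the sub-blocks. -/
abbrev Mi (ℓ : ℕ) : Type := Fin (2 * ℓ) × Bool

/-- concatenation of two combs. -/
def tt (b : ℕ) : Bool × Fin b ≃ Fin (2 * b) :=
  (Equiv.prodCongr finTwoEquiv.symm (Equiv.refl (Fin b))).trans finProdFinEquiv

lemma tt_false {b : ℕ} (t : Fin b) : ((tt b (false, t) : Fin (2 * b)) : ℕ) = t := by
  have h0 : finTwoEquiv.symm false = 0 := rfl
  simp [tt, h0]

lemma tt_true {b : ℕ} (t : Fin b) : ((tt b (true, t) : Fin (2 * b)) : ℕ) = b + t := by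
  have h0 : finTwoEquiv.symm true = 1 := rfl
  simp [tt, h0]
  omega

def swapE (A F : Type) : (A ⊕ A) ⊕ F ≃ (A ⊕ F) ⊕ A where
  toFun
    | Sum.inl (Sum.inl a) => Sum.inl (Sum.inl a)
    | Sum.inl (Sum.inr a) => Sum.inr a
    | Sum.inr f => Sum.inl (Sum.inr f)
  invFun
    | Sum.inl (Sum.inl a) => Sum.inl (Sum.inl a)
    | Sum.inl (Sum.inr f) => Sum.inr f
    | Sum.inr a => Sum.inl (Sum.inr a)
  left_inv := by rintro ((a | a) | f) <;> rfl
  right_inv := by rintro ((a | f) | a) <;> rfl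

/-- placement of the combs with a given index `j` inside the cluster and the bigger combs. -/
noncomputable def cc {ℓ b h : ℕ} (X : Sub ℓ) (o : Fin ℓ → Bool) :
    ((Mi ℓ × Fin b) ⊕ (Bool × Fin h)) ≃ (Fin (2 * (b * ℓ + h)) ⊕ (Fin ℓ × Fin (2 * b))) :=
  (Equiv.sumCongr (((Equiv.prodAssoc (Fin (2 * ℓ)) Bool (Fin b)).trans
    (Equiv.prodCongr (eX X).symm (Equiv.refl (Bool × Fin b)))).trans
      (Equiv.sumProdDistrib (Fin ℓ) (Fin ℓ) (Bool × Fin b)))
        (Equiv.refl (Bool × Fin h))).trans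
    ((swapE (Fin ℓ × (Bool × Fin b)) (Bool × Fin h)).trans
      (Equiv.sumCongr (clus o) (Equiv.prodCongr (Equiv.refl (Fin ℓ)) (tt b))))

lemma cc_inl {ℓ b h : ℕ} (X : Sub ℓ) (o : Fin ℓ → Bool) (c : Fin ℓ) (q : Bool) (t : Fin b) :
    cc (h := h) X o (Sum.inl ((eX X (Sum.inl c), q), t)) = Sum.inl (clus o (Sum.inl (c, q, t))) := by
  simp [cc, swapE]

lemma cc_inr {ℓ b h : ℕ} (X : Sub ℓ) (o : Fin ℓ → Bool) (c : Fin ℓ) (q : Bool) (t : Fin b) :
    cc (h := h) X o (Sum.inl ((eX X (Sum.inr c), q), t)) = Sum.inr (c, tt b (q, t)) := by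
  simp [cc, swapE]

lemma cc_fil {ℓ b h : ℕ} (X : Sub ℓ) (o : Fin ℓ → Bool) (z : Bool × Fin h) :
    cc (b := b) X o (Sum.inr z) = Sum.inl (clus o (Sum.inr z)) := by
  simp [cc, swapE]

def swapF (M A J B F : Type) : (M × (A ⊕ (J × B))) ⊕ (J × F) ≃ (M × A) ⊕ (J × ((M × B) ⊕ F)) where
  toFun
    | Sum.inl (m, Sum.inl i) => Sum.inl (m, i)
    | Sum.inl (m, Sum.inr (j, t)) => Sum.inr (j, Sum.inl (m, t))
    | Sum.inr (j, f) => Sum.inr (j, Sum.inr f)
  invFun
    | Sum.inl (m, i) => Sum.inl (m, Sum.inl i)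
    | Sum.inr (j, Sum.inl (m, t)) => Sum.inl (m, Sum.inr (j, t))
    | Sum.inr (j, Sum.inr f) => Sum.inr (j, f)
  left_inv := by rintro (⟨m, i | ⟨j, t⟩⟩ | ⟨j, f⟩) <;> rfl
  right_inv := by rintro (⟨m, i⟩ | ⟨j, ⟨m, t⟩ | f⟩) <;> rfl

def swapG (P J A L B : Type) : P ⊕ (J × (A ⊕ (L × B))) ≃ (P ⊕ (J × A)) ⊕ ((J × L) × B) where
  toFun
    | Sum.inl p => Sum.inl (Sum.inl p)
    | Sum.inr (j, Sum.inl a) => Sum.inl (Sum.inr (j, a))
    | Sum.inr (j, Sum.inr (l, b)) => Sum.inr ((j, l), b)
  invFun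
    | Sum.inl (Sum.inl p) => Sum.inl p
    | Sum.inl (Sum.inr (j, a)) => Sum.inr (j, Sum.inl a)
    | Sum.inr ((j, l), b) => Sum.inr (j, Sum.inr (l, b))
  left_inv := by rintro (p | ⟨j, a | ⟨l, b⟩⟩) <;> rfl
  right_inv := by rintro ((p | ⟨j, a⟩) | ⟨⟨j, l⟩, b⟩) <;> rfl

section step

variable {V J : Type} [Fintype J] {N b ℓ h : ℕ}

/-- length of the new word. -/
noncomputable abbrev newN (J : Type) [Fintype J] (N b ℓ h : ℕ) : ℕ :=
  Fintype.card (Mi ℓ) * N + Fintype.card J * (2 * (b * ℓ + h))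

/-- the new placement. -/
noncomputable def nloc (L : Mi ℓ → (V ≃ Fin N ⊕ (J × Fin b))) (X : J → Sub ℓ)
    (o : J → Fin ℓ → Bool) :
    ((Mi ℓ × V) ⊕ (J × (Bool × Fin h))) ≃ Fin (newN J N b ℓ h) ⊕ ((J × Fin ℓ) × Fin (2 * b)) :=
  (Equiv.sumCongr (Equiv.prodShear (Equiv.refl (Mi ℓ)) L) (Equiv.refl (J × (Bool × Fin h)))).trans
  ((swapF (Mi ℓ) (Fin N) J (Fin b) (Bool × Fin h)).trans
  ((Equiv.sumCongr (Equiv.refl (Mi ℓ × Fin N))
    (Equiv.prodShear (Equiv.refl J) (fun j => cc (X j) (o j)))).trans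
  ((swapG (Mi ℓ × Fin N) J (Fin (2 * (b * ℓ + h))) (Fin ℓ) (Fin (2 * b))).trans
  (Equiv.sumCongr ((Equiv.sumCongr
    ((Equiv.prodCongr (Fintype.equivFin (Mi ℓ)) (Equiv.refl (Fin N))).trans finProdFinEquiv)
    ((Equiv.prodCongr (Fintype.equivFin J) (Equiv.refl (Fin (2 * (b * ℓ + h))))).trans
      finProdFinEquiv)).trans finSumFinEquiv) (Equiv.refl _)))))

lemma nloc_word (L : Mi ℓ → (V ≃ Fin N ⊕ (J × Fin b))) (X : J → Sub ℓ)
    (o : J → Fin ℓ → Bool) (m : Mi ℓ) (v : V) (i : Fin N) (hv : L m v = Sum.inl i) :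
    ∃ i', nloc (h := h) L X o (Sum.inl (m, v)) = Sum.inl i' ∧
      (i' : ℕ) = i + N * (Fintype.equivFin (Mi ℓ) m) := by
  refine ⟨Fin.castAdd _ (finProdFinEquiv (Fintype.equivFin (Mi ℓ) m, i)), ?_, ?_⟩
  · simp [nloc, hv, swapF, swapG]
  · simp

lemma nloc_comb (L : Mi ℓ → (V ≃ Fin N ⊕ (J × Fin b))) (X : J → Sub ℓ)
    (o : J → Fin ℓ → Bool) (c : Fin ℓ) (q : Bool) (v : V) (j : J) (t : Fin b)
    (hv : L (eX (X j) (Sum.inr c), q) v = Sum.inr (j, t)) :
    nloc (h := h) L X o (Sum.inl ((eX (X j) (Sum.inr c), q), v)) = Sum.inr ((j, c), tt b (q, t)) := by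
  simp [nloc, hv, swapF, swapG, cc_inr]

/-- the vertex of a given content of the cluster `j`. -/
noncomputable def vert (L : Mi ℓ → (V ≃ Fin N ⊕ (J × Fin b))) (X : J → Sub ℓ) (j : J) :
    Cont ℓ b h → (Mi ℓ × V) ⊕ (J × (Bool × Fin h))
  | Sum.inl (c, q, t) => Sum.inl ((eX (X j) (Sum.inl c), q),
      (L (eX (X j) (Sum.inl c), q)).symm (Sum.inr (j, t)))
  | Sum.inr z => Sum.inr (j, z)

lemma nloc_vert (L : Mi ℓ → (V ≃ Fin N ⊕ (J × Fin b))) (X : J → Sub ℓ)
    (o : J → Fin ℓ → Bool) (j : J) (z : Cont ℓ b h) :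
    ∃ i', nloc (h := h) L X o (vert L X j z) = Sum.inl i' ∧
      (i' : ℕ) = Fintype.card (Mi ℓ) * N + (posn (o j) z + (2 * (b * ℓ + h)) * (Fintype.equivFin J j)) := by
  refine ⟨Fin.natAdd _ (finProdFinEquiv (Fintype.equivFin J j, clus (o j) z)), ?_, ?_⟩
  · rcases z with ⟨c, q, t⟩ | z
    · simp [nloc, vert, swapF, swapG, cc_inl]
    · simp [nloc, vert, swapF, swapG, cc_fil]
  · simp [clus_val]

end step

/-- A path with position function `pos` is compatible with a placement of a block: the word of the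
block is a contiguous segment, the teeth of every comb are at consecutive distance two and the
cells between them do not belong to the block. -/
def Compat {V J W : Type} {N b : ℕ} (loc : V ≃ Fin N ⊕ (J × Fin b)) (pos : W → ℤ) (f : V → W) :
    Prop :=
  (∃ s : ℤ, ∀ v (i : Fin N), loc v = Sum.inl i → pos (f v) = s + (i : ℕ)) ∧
  (∀ j : J, ∃ p ε : ℤ, (ε = 1 ∨ ε = -1) ∧
    (∀ v (t : Fin b), loc v = Sum.inr (j, t) → pos (f v) = p + ε * (2 * (t : ℕ))) ∧
    (∀ t : ℕ, t + 1 < b → ∀ v : V, pos (f v) ≠ p + ε * (2 * t + 1)))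

section step2

variable {V J W : Type} [Fintype J] {N b ℓ h : ℕ}

lemma pos_vert (L : Mi ℓ → (V ≃ Fin N ⊕ (J × Fin b))) (X : J → Sub ℓ) (o : J → Fin ℓ → Bool)
    (pos : W → ℤ) (f : (Mi ℓ × V) ⊕ (J × (Bool × Fin h)) → W) (s : ℤ)
    (hs : ∀ v i, nloc (h := h) L X o v = Sum.inl i → pos (f v) = s + (i : ℕ)) (j : J)
    (z : Cont ℓ b h) :
    pos (f (vert L X j z)) = (s + ((Fintype.card (Mi ℓ) * N : ℕ) : ℤ) +
      (((2 * (b * ℓ + h)) * (Fintype.equivFin J j) : ℕ) : ℤ)) + posn (o j) z := by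
  obtain ⟨i', h1, h2⟩ := nloc_vert (h := h) L X o j z
  rw [hs _ _ h1, h2]
  push_cast
  ring

lemma exists_vert (L : Mi ℓ → (V ≃ Fin N ⊕ (J × Fin b))) (X : J → Sub ℓ) (o : J → Fin ℓ → Bool)
    (pos : W → ℤ) (f : (Mi ℓ × V) ⊕ (J × (Bool × Fin h)) → W) (s : ℤ)
    (hs : ∀ v i, nloc (h := h) L X o v = Sum.inl i → pos (f v) = s + (i : ℕ)) (j : J) (y : ℤ)
    (h1 : (s + ((Fintype.card (Mi ℓ) * N : ℕ) : ℤ) +
      (((2 * (b * ℓ + h)) * (Fintype.equivFin J j) : ℕ) : ℤ)) ≤ y)
    (h2 : y < (s + ((Fintype.card (Mi ℓ) * N : ℕ) : ℤ) +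
      (((2 * (b * ℓ + h)) * (Fintype.equivFin J j) : ℕ) : ℤ)) + ((2 * (b * ℓ + h) : ℕ) : ℤ)) :
    ∃ z : Cont ℓ b h, pos (f (vert L X j z)) = y ∧
      y = (s + ((Fintype.card (Mi ℓ) * N : ℕ) : ℤ) +
      (((2 * (b * ℓ + h)) * (Fintype.equivFin J j) : ℕ) : ℤ)) + posn (o j) z := by
  set base := (s + ((Fintype.card (Mi ℓ) * N : ℕ) : ℤ) +
      (((2 * (b * ℓ + h)) * (Fintype.equivFin J j) : ℕ) : ℤ)) with hbase
  have h3 : (y - base).toNat < 2 * (b * ℓ + h) := by omega
  refine ⟨(clus (o j)).symm ⟨(y - base).toNat, h3⟩, ?_, ?_⟩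
  · rw [pos_vert L X o pos f s hs, ← clus_val, Equiv.apply_symm_apply, ← hbase]
    simp only
    omega
  · rw [← clus_val, Equiv.apply_symm_apply]
    simp only
    omega

lemma compat_sub (L : Mi ℓ → (V ≃ Fin N ⊕ (J × Fin b))) (X : J → Sub ℓ) (o : J → Fin ℓ → Bool)
    (pos : W → ℤ) (hpos : Function.Injective pos)
    (f : (Mi ℓ × V) ⊕ (J × (Bool × Fin h)) → W) (hf : Function.Injective f)
    (hC : Compat (nloc (h := h) L X o) pos f) (m : Mi ℓ) :
    Compat (L m) pos (fun v => f (Sum.inl (m, v))) := by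
  obtain ⟨⟨s, hs⟩, hcomb⟩ := hC
  refine ⟨⟨s + ((N * (Fintype.equivFin (Mi ℓ) m) : ℕ) : ℤ), ?_⟩, ?_⟩
  · intro v i hv
    obtain ⟨i', h1, h2⟩ := nloc_word (h := h) L X o m v i hv
    simp only
    rw [hs _ _ h1, h2]
    push_cast
    ring
  · intro j
    obtain ⟨x, q⟩ := m
    rcases hx : (eX (X j)).symm x with c | c
    · have hx' : x = eX (X j) (Sum.inl c) := by rw [← hx, Equiv.apply_symm_apply]
      subst hx'
      obtain ⟨p, ε, hε, ht, hh⟩ := posn_comb (h := h) (b := b) (o j) c q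
      refine ⟨(s + ((Fintype.card (Mi ℓ) * N : ℕ) : ℤ) +
      (((2 * (b * ℓ + h)) * (Fintype.equivFin J j) : ℕ) : ℤ)) + p, ε, hε, ?_, ?_⟩
      · intro v t hv
        have h1 : (Sum.inl ((eX (X j) (Sum.inl c), q), v) : (Mi ℓ × V) ⊕ (J × (Bool × Fin h)))
            = vert L X j (Sum.inl (c, q, t)) := by
          simp only [vert, ← hv, Equiv.symm_apply_apply]
        simp only
        rw [h1, pos_vert L X o pos f s hs, ht t]
        ring
      · intro t htb v hv
        obtain ⟨h1, h2, h3⟩ := hh t htb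
        obtain ⟨z, hz1, hz2⟩ := exists_vert L X o pos f s hs j
          ((s + ((Fintype.card (Mi ℓ) * N : ℕ) : ℤ) +
            (((2 * (b * ℓ + h)) * (Fintype.equivFin J j) : ℕ) : ℤ)) + p + ε * (2 * t + 1))
          (by linarith) (by push_cast at h2 ⊢; linarith)
        have h4 : (Sum.inl ((eX (X j) (Sum.inl c), q), v) : (Mi ℓ × V) ⊕ (J × (Bool × Fin h)))
            = vert L X j z := by
          apply hf
          apply hpos
          rw [hz1]
          exact hv
        rcases z with ⟨c', q', t'⟩ | z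
        · simp only [vert, Sum.inl.injEq, Prod.mk.injEq, EmbeddingLike.apply_eq_iff_eq] at h4
          obtain ⟨⟨rfl, rfl⟩, -⟩ := h4
          apply h3 t'
          linarith
        · simp [vert] at h4
    · have hx' : x = eX (X j) (Sum.inr c) := by rw [← hx, Equiv.apply_symm_apply]
      subst hx'
      obtain ⟨p, ε, hε, ht, hh⟩ := hcomb (j, c)
      rcases q with _ | _
      · refine ⟨p, ε, hε, ?_, ?_⟩
        · intro v t hv
          have h1 := nloc_comb (h := h) L X o c false v j t hv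
          simp only
          rw [ht _ _ h1, tt_false]
        · intro t htb v
          exact hh t (by omega) _
      · refine ⟨p + ε * (2 * b), ε, hε, ?_, ?_⟩
        · intro v t hv
          have h1 := nloc_comb (h := h) L X o c true v j t hv
          simp only
          rw [ht _ _ h1, tt_true]
          push_cast
          ring
        · intro t htb v hv
          have := hh (b + t) (by omega) (Sum.inl ((eX (X j) (Sum.inr c), true), v))
          apply this
          rw [hv]
          push_cast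
          ring

lemma sep_step {k : ℕ} (hb : 1 ≤ b) (hk : 1 ≤ k) (hh : h + 2 = b + k)
    (L : Mi ℓ → (V ≃ Fin N ⊕ (J × Fin b))) (X X' : J → Sub ℓ) (o o' : J → Fin ℓ → Bool)
    (h0 : ∀ j (c : Fin ℓ), (c : ℕ) = 0 → o j c = o' j c)
    (pos pos' : W → ℤ) (hg : Good pos) (hg' : Good pos')
    (f : (Mi ℓ × V) ⊕ (J × (Bool × Fin h)) → W)
    (hC : Compat (nloc (h := h) L X o) pos f) (hC' : Compat (nloc (h := h) L X' o') pos' f)
    (hne : X ≠ X' ∨ o ≠ o') : Cyc k pos pos' := by
  obtain ⟨⟨s, hs⟩, -⟩ := hC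
  obtain ⟨⟨s', hs'⟩, hcomb'⟩ := hC'
  by_cases hX : X = X'
  · subst hX
    have ho : o ≠ o' := by
      rcases hne with h | h
      · exact absurd rfl h
      · exact h
    obtain ⟨j, hj⟩ := Function.ne_iff.1 ho
    obtain ⟨c0, hc0⟩ := Function.ne_iff.1 hj
    obtain ⟨c, hc, hmin⟩ := WellFounded.has_min (wellFounded_lt : WellFounded
      ((· < ·) : Fin ℓ → Fin ℓ → Prop)) {c | o j c ≠ o' j c} ⟨c0, hc0⟩
    have hmin' : ∀ d : Fin ℓ, (d : ℕ) < c → o j d = o' j d := by
      intro d hd
      by_contra hne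
      exact hmin d hne hd
    have hc1 : 1 ≤ (c : ℕ) := by
      by_contra hlt
      exact hc (h0 j c (by omega))
    rcases Bool.eq_false_or_eq_true (o j c) with h1 | h1
    · have h2 : o' j c = false := by
        have : o j c ≠ o' j c := hc
        rw [h1] at this
        simpa using this.symm
      obtain ⟨z, hz1, hz2, hz3⟩ := posn_orient hb hk hh (o' j) (o j) c hc1
        (fun d hd => (hmin' d hd).symm) h2 h1
      have e1 := pos_vert L X o pos f s hs j z
      have e2 := pos_vert L X o pos f s hs j (Sum.inl (c, false, (⟨b - 1, by omega⟩ : Fin b)))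
      have e3 := pos_vert L X o' pos' f s' hs' j z
      have e4 := pos_vert L X o' pos' f s' hs' j (Sum.inl (c, false, (⟨b - 1, by omega⟩ : Fin b)))
      apply cyc1 k hk pos pos' hg (f (vert L X j z))
        (f (vert L X j (Sum.inl (c, false, (⟨b - 1, by omega⟩ : Fin b)))))
      · rw [e1, e2, hz3, hz1]
        push_cast
        ring
      · left
        rw [e3, e4, hz2]
        push_cast
        ring
    · have h2 : o' j c = true := by
        have : o j c ≠ o' j c := hc
        rw [h1] at this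
        simpa using this.symm
      obtain ⟨z, hz1, hz2, hz3⟩ := posn_orient hb hk hh (o j) (o' j) c hc1 hmin' h1 h2
      have e1 := pos_vert L X o pos f s hs j z
      have e2 := pos_vert L X o pos f s hs j (Sum.inl (c, false, (⟨b - 1, by omega⟩ : Fin b)))
      have e3 := pos_vert L X o' pos' f s' hs' j z
      have e4 := pos_vert L X o' pos' f s' hs' j (Sum.inl (c, false, (⟨b - 1, by omega⟩ : Fin b)))
      apply Cyc.symm
      apply cyc1 k hk pos' pos hg' (f (vert L X j z))
        (f (vert L X j (Sum.inl (c, false, (⟨b - 1, by omega⟩ : Fin b)))))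
      · rw [e3, e4, hz3, hz1]
        push_cast
        ring
      · left
        rw [e1, e2, hz2]
        push_cast
        ring
  · obtain ⟨j, hj⟩ := Function.ne_iff.1 hX
    have hex : ∃ x, x ∈ (X j).1 ∧ x ∉ (X' j).1 := by
      by_contra hcon
      push Not at hcon
      apply hj
      apply Subtype.ext
      apply Finset.eq_of_subset_of_card_le hcon
      rw [(X j).2, (X' j).2]
    obtain ⟨x, hx1, hx2⟩ := hex
    obtain ⟨c, hc⟩ : ∃ c, x = eX (X j) (Sum.inl c) := by
      rcases hx : (eX (X j)).symm x with c | c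
      · exact ⟨c, by rw [← hx, Equiv.apply_symm_apply]⟩
      · exfalso
        have hx' : x = eX (X j) (Sum.inr c) := by rw [← hx, Equiv.apply_symm_apply]
        rw [hx'] at hx1
        exact eX_inr _ _ hx1
    obtain ⟨c', hc'⟩ : ∃ c', x = eX (X' j) (Sum.inr c') := by
      rcases hx : (eX (X' j)).symm x with c | c
      · exfalso
        have hx' : x = eX (X' j) (Sum.inl c) := by rw [← hx, Equiv.apply_symm_apply]
        rw [hx'] at hx2
        exact hx2 (eX_inl _ _)
      · exact ⟨c, by rw [← hx, Equiv.apply_symm_apply]⟩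
    set u := vert (h := h) L X j (Sum.inl (c, false, (⟨b - 1, by omega⟩ : Fin b))) with hu
    set w := vert (h := h) L X j (Sum.inl (c, true, (⟨0, by omega⟩ : Fin b))) with hw
    have hu' : u = Sum.inl ((x, false), (L (x, false)).symm
        (Sum.inr (j, (⟨b - 1, by omega⟩ : Fin b)))) := by
      rw [hu, hc]
      rfl
    have hw' : w = Sum.inl ((x, true), (L (x, true)).symm
        (Sum.inr (j, (⟨0, by omega⟩ : Fin b)))) := by
      rw [hw, hc]
      rfl
    obtain ⟨p, ε, hε, ht, hh'⟩ := hcomb' (j, c')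
    have hu2 : nloc (h := h) L X' o' u = Sum.inr ((j, c'), tt b (false, ⟨b - 1, by omega⟩)) := by
      rw [hu', hc']
      apply nloc_comb
      simp
    have hw2 : nloc (h := h) L X' o' w = Sum.inr ((j, c'), tt b (true, ⟨0, by omega⟩)) := by
      rw [hw', hc']
      apply nloc_comb
      simp
    have hpu := ht _ _ hu2
    have hpw := ht _ _ hw2
    rw [tt_false] at hpu
    rw [tt_true] at hpw
    simp only at hpu hpw
    have hhole := hh' (b - 1) (by omega)
    obtain ⟨mm, hmm⟩ : ∃ mm, pos' mm = p + ε * (2 * ((b - 1 : ℕ) : ℤ) + 1) := by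
      rcases hε with rfl | rfl
      · apply hg'.2 (f u) (f w)
        · rw [hpu]; omega
        · rw [hpw]; push_cast; omega
      · apply hg'.2 (f w) (f u)
        · rw [hpw]; push_cast; omega
        · rw [hpu]; omega
    have hmr : ∀ v, mm ≠ f v := by
      intro v hv
      apply hhole v
      rw [← hv, hmm]
    have hadj1 : (pg pos').Adj (f u) mm := by
      rcases hε with rfl | rfl
      · left
        rw [hpu, hmm]; ring
      · right
        rw [hpu, hmm]; ring
    have hadj2 : (pg pos').Adj (f w) mm := by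
      rcases hε with rfl | rfl
      · right
        rw [hpw, hmm]; push_cast; omega
      · left
        rw [hpw, hmm]; push_cast; omega
    have e1 := pos_vert L X o pos f s hs j (Sum.inl (c, false, (⟨b - 1, by omega⟩ : Fin b)))
    have e2 := pos_vert L X o pos f s hs j (Sum.inl (c, true, (⟨0, by omega⟩ : Fin b)))
    rw [← hu] at e1
    rw [← hw] at e2
    have l1 := posn_lt (h := h) (o j) (Sum.inl (c, false, (⟨b - 1, by omega⟩ : Fin b)))
    have l2 := posn_lt (h := h) (o j) (Sum.inl (c, true, (⟨0, by omega⟩ : Fin b)))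
    have hout : ∀ a a' : W, ((a = f u ∧ a' = f w) ∨ (a = f w ∧ a' = f u)) →
        pos mm < pos a ∨ pos a' < pos mm := by
      intro a a' haa
      by_contra hcon
      push Not at hcon
      obtain ⟨z, hz1, hz2⟩ := exists_vert L X o pos f s hs j (pos mm)
        (by rcases haa with ⟨rfl, rfl⟩ | ⟨rfl, rfl⟩ <;> omega)
        (by rcases haa with ⟨rfl, rfl⟩ | ⟨rfl, rfl⟩ <;> omega)
      exact hmr _ (hg.1 hz1).symm
    rcases posn_dist (h := h) hb hh (o j) c with hd | hd
    · apply cyc2 k hk pos pos' hg (f u) (f w) mm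
      · rw [e1, e2, hd]; ring
      · exact hout _ _ (Or.inl ⟨rfl, rfl⟩)
      · exact hadj2
      · exact hadj1.symm
    · apply cyc2 k hk pos pos' hg (f w) (f u) mm
      · rw [e1, e2, hd]; ring
      · exact hout _ _ (Or.inr ⟨rfl, rfl⟩)
      · exact hadj1
      · exact hadj2.symm

end step2

/-- A block: `Ω` states, vertex set `V`, `J` combs with `b` teeth each, a word of length `N`. -/
structure Block (k : ℕ) where
  b : ℕ
  hb : 1 ≤ b
  V : Type
  Ω : Type
  J : Type
  fV : Fintype V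
  fΩ : Fintype Ω
  fJ : Fintype J
  N : ℕ
  loc : Ω → (V ≃ Fin N ⊕ (J × Fin b))
  sep : ∀ ω ω' : Ω, ω ≠ ω' → ∀ (W : Type) (pos pos' : W → ℤ) (f : V → W), Good pos → Good pos' →
    Function.Injective f → Compat (loc ω) pos f → Compat (loc ω') pos' f → Cyc k pos pos'

attribute [instance] Block.fV Block.fΩ Block.fJ

/-- The trivial block: one vertex. -/
def Block.base (k : ℕ) : Block k where
  b := 1
  hb := le_rfl
  V := Unit
  Ω := Unit
  J := Unit
  fV := inferInstance
  fΩ := inferInstance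
  fJ := inferInstance
  N := 0
  loc := fun _ =>
    { toFun := fun _ => Sum.inr ((), 0)
      invFun := fun _ => ()
      left_inv := fun _ => rfl
      right_inv := by
        rintro (i | ⟨j, t⟩)
        · exact i.elim0
        · have : t = 0 := Subsingleton.elim _ _
          subst this
          rfl }
  sep := fun ω ω' h => absurd (Subsingleton.elim ω ω') h

/-- The recursive step. -/
noncomputable def Block.step {k : ℕ} (hk : 1 ≤ k) (B : Block k) (l : ℕ) : Block k where
  b := 2 * B.b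
  hb := by have := B.hb; omega
  V := (Mi (l + 1) × B.V) ⊕ (B.J × (Bool × Fin (B.b + k - 2)))
  Ω := (Mi (l + 1) → B.Ω) × (B.J → Sub (l + 1) × (Fin l → Bool))
  J := B.J × Fin (l + 1)
  fV := inferInstance
  fΩ := by classical exact inferInstance
  fJ := inferInstance
  N := newN B.J B.N B.b (l + 1) (B.b + k - 2)
  loc := fun w => nloc (fun m => B.loc (w.1 m)) (fun j => (w.2 j).1)
    (fun j => Fin.cons false (w.2 j).2)
  sep := by
    rintro ⟨w, D⟩ ⟨w', D'⟩ hne W pos pos' f hg hg' hf hC hC'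
    by_cases hw : w = w'
    · subst hw
      have hb := B.hb
      apply sep_step hb hk (by omega) (fun m => B.loc (w m)) (fun j => (D j).1)
        (fun j => (D' j).1) (fun j => Fin.cons false (D j).2) (fun j => Fin.cons false (D' j).2)
        ?_ pos pos' hg hg' f hC hC' ?_
      · intro j c hc
        have : c = 0 := Fin.ext hc
        subst this
        simp
      · by_contra hcon
        push Not at hcon
        apply hne
        have hD : D = D' := by
          funext j
          apply Prod.ext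
          · exact congrFun hcon.1 j
          · have := congrFun hcon.2 j
            exact Fin.cons_right_injective _ this
        rw [hD]
    · obtain ⟨m, hm⟩ := Function.ne_iff.1 hw
      apply B.sep (w m) (w' m) hm W pos pos' (fun v => f (Sum.inl (m, v))) hg hg'
      · intro v v' hv
        have := hf hv
        simpa using this
      · exact compat_sub (fun m => B.loc (w m)) _ _ pos hg.1 f hf hC m
      · exact compat_sub (fun m => B.loc (w' m)) _ _ pos' hg'.1 f hf hC' m

lemma Block.step_b {k : ℕ} (hk : 1 ≤ k) (B : Block k) (l : ℕ) : (B.step hk l).b = 2 * B.b := rfl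

lemma Block.step_J {k : ℕ} (hk : 1 ≤ k) (B : Block k) (l : ℕ) :
    Fintype.card (B.step hk l).J = Fintype.card B.J * (l + 1) := by
  change Fintype.card (B.J × Fin (l + 1)) = _
  rw [Fintype.card_prod, Fintype.card_fin]

lemma Block.step_V {k : ℕ} (hk : 1 ≤ k) (B : Block k) (l : ℕ) :
    Fintype.card (B.step hk l).V = 4 * (l + 1) * Fintype.card B.V +
      Fintype.card B.J * (2 * (B.b + k - 2)) := by
  change Fintype.card ((Mi (l + 1) × B.V) ⊕ (B.J × (Bool × Fin (B.b + k - 2)))) = _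
  simp only [Fintype.card_sum, Fintype.card_prod, Fintype.card_bool, Fintype.card_fin]
  ring

lemma Block.step_Ω {k : ℕ} (hk : 1 ≤ k) (B : Block k) (l : ℕ) :
    Fintype.card (B.step hk l).Ω = Fintype.card B.Ω ^ (4 * (l + 1)) *
      (Nat.centralBinom (l + 1) * 2 ^ l) ^ Fintype.card B.J := by
  classical
  have h0 : Fintype.card (Sub (l + 1)) = Nat.centralBinom (l + 1) := by
    rw [Fintype.card_finset_len, Fintype.card_fin, Nat.centralBinom]
  have h1 : Fintype.card ((Mi (l + 1) → B.Ω) × (B.J → Sub (l + 1) × (Fin l → Bool))) =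
    Fintype.card B.Ω ^ (4 * (l + 1)) *
      (Nat.centralBinom (l + 1) * 2 ^ l) ^ Fintype.card B.J := by
    have h2 : Fintype.card (Mi (l + 1)) = 4 * (l + 1) := by
      simp only [Fintype.card_prod, Fintype.card_bool, Fintype.card_fin]
      ring
    have h3 : Fintype.card (Sub (l + 1) × (Fin l → Bool)) =
        Nat.centralBinom (l + 1) * 2 ^ l := by
      rw [Fintype.card_prod, h0]
      simp
    rw [Fintype.card_prod, Fintype.card_fun, Fintype.card_fun, h2, h3]
  rw [← h1]
  exact Fintype.card_congr (Equiv.refl _)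

open Filter in
lemma ev_const (c δ : ℝ) (hδ : 0 < δ) : ∀ᶠ l : ℕ in atTop, c ≤ δ * ((l : ℝ) + 1) := by
  have h : Tendsto (fun l : ℕ => δ * ((l : ℝ) + 1)) atTop atTop := by
    apply Tendsto.const_mul_atTop hδ
    exact tendsto_atTop_add_const_right _ _ tendsto_natCast_atTop_atTop
  exact h.eventually_ge_atTop c

open Filter in
lemma ev_log (δ : ℝ) (hδ : 0 < δ) :
    ∀ᶠ l : ℕ in atTop, 1 + Real.logb 2 (2 * ((l : ℝ) + 1)) ≤ δ * ((l : ℝ) + 1) := by
  have hlog2 : 0 < Real.log 2 := Real.log_pos (by norm_num)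
  have h1 := Real.isLittleO_log_id_atTop.def (show (0 : ℝ) < δ * Real.log 2 / 4 by positivity)
  have h2 : Tendsto (fun l : ℕ => 2 * ((l : ℝ) + 1)) atTop atTop := by
    apply Tendsto.const_mul_atTop (by norm_num)
    exact tendsto_atTop_add_const_right _ _ tendsto_natCast_atTop_atTop
  have h3 := h2.eventually h1
  filter_upwards [h3, ev_const 1 (δ / 2) (by positivity)] with l h4 h5
  have h6 : Real.log (2 * ((l : ℝ) + 1)) ≤ δ * Real.log 2 / 4 * (2 * ((l : ℝ) + 1)) := by
    have h7 : ‖id (2 * ((l : ℝ) + 1))‖ = 2 * ((l : ℝ) + 1) := by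
      rw [id, Real.norm_of_nonneg (by positivity)]
    rw [h7] at h4
    exact (Real.le_norm_self _).trans h4
  have h8 : Real.logb 2 (2 * ((l : ℝ) + 1)) ≤ δ / 2 * ((l : ℝ) + 1) := by
    rw [Real.logb, div_le_iff₀ hlog2]
    linarith
  linarith

lemma logb_centralBinom (l : ℕ) :
    2 * ((l : ℝ) + 1) - Real.logb 2 (2 * ((l : ℝ) + 1)) ≤
      Real.logb 2 (Nat.centralBinom (l + 1)) := by
  have h1 : (4 : ℝ) ^ (l + 1) ≤ (2 * ((l : ℝ) + 1)) * (Nat.centralBinom (l + 1) : ℝ) := by
    have := Nat.four_pow_le_two_mul_self_mul_centralBinom (l + 1) (Nat.succ_pos l)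
    exact_mod_cast this
  have hcb : (0 : ℝ) < (Nat.centralBinom (l + 1) : ℝ) := by
    exact_mod_cast Nat.centralBinom_pos (l + 1)
  have h2 : Real.logb 2 ((4 : ℝ) ^ (l + 1)) ≤
      Real.logb 2 ((2 * ((l : ℝ) + 1)) * (Nat.centralBinom (l + 1) : ℝ)) :=
    Real.logb_le_logb_of_le (by norm_num) (by positivity) h1
  rw [Real.logb_mul (by positivity) hcb.ne', Real.logb_pow] at h2
  have h3 : Real.logb 2 4 = 2 := by
    rw [show (4 : ℝ) = 2 ^ (2 : ℝ) by norm_num, Real.logb_rpow (by norm_num) (by norm_num)]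
  rw [h3] at h2
  push_cast at h2
  linarith

open Filter in
lemma exists_block {k : ℕ} (hk : 1 ≤ k) (r : ℕ) : ∀ δ : ℝ, 0 < δ → ∀ᶠ l : ℕ in atTop,
    ∃ B : Block k, B.b = 2 ^ r ∧ Fintype.card B.J = (l + 1) ^ r ∧ 1 ≤ Fintype.card B.Ω ∧
      (Fintype.card B.V : ℝ) ≤ (1 + δ) * (4 * ((l : ℝ) + 1)) ^ r ∧
      (1 - (1 / 4) ^ r - δ) * (4 * ((l : ℝ) + 1)) ^ r ≤ Real.logb 2 (Fintype.card B.Ω) := by
  induction r with
  | zero =>
    intro δ hδ
    filter_upwards with l
    refine ⟨Block.base k, rfl, ?_, ?_, ?_, ?_⟩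
    · change Fintype.card Unit = _
      simp
    · change 1 ≤ Fintype.card Unit
      simp
    · change ((Fintype.card Unit : ℕ) : ℝ) ≤ _
      simp
      exact hδ.le
    · change _ ≤ Real.logb 2 ((Fintype.card Unit : ℕ) : ℝ)
      simp
      exact hδ.le
  | succ r ih =>
    intro δ hδ
    filter_upwards [ih (δ / 2) (by positivity), ev_const (2 * ((2 : ℝ) ^ r + k)) (δ / 2)
      (by positivity), ev_log (δ / 2) (by positivity)] with l h1 h2 h3
    obtain ⟨B, hBb, hBJ, hBΩ, hBV, hBL⟩ := h1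
    have hl : (0 : ℝ) < (l : ℝ) + 1 := by positivity
    refine ⟨B.step hk l, ?_, ?_, ?_, ?_, ?_⟩
    · rw [Block.step_b, hBb, pow_succ]
      ring
    · rw [Block.step_J, hBJ, pow_succ]
    · rw [Block.step_Ω]
      have := Nat.centralBinom_pos (l + 1)
      exact Nat.one_le_iff_ne_zero.2 (by positivity)
    · rw [Block.step_V, hBJ]
      push_cast
      have e1 : ((B.b + k - 2 : ℕ) : ℝ) ≤ (2 : ℝ) ^ r + k := by
        have : B.b + k - 2 ≤ 2 ^ r + k := by omega
        exact_mod_cast this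
      have e2 : ((l : ℝ) + 1) ^ r * (2 * ((B.b + k - 2 : ℕ) : ℝ)) ≤
          δ / 2 * (4 * ((l : ℝ) + 1)) ^ (r + 1) := by
        calc ((l : ℝ) + 1) ^ r * (2 * ((B.b + k - 2 : ℕ) : ℝ))
            ≤ ((l : ℝ) + 1) ^ r * (δ / 2 * ((l : ℝ) + 1)) := by
              apply mul_le_mul_of_nonneg_left _ (by positivity)
              linarith
          _ = δ / 2 * ((l : ℝ) + 1) ^ (r + 1) := by ring
          _ ≤ δ / 2 * (4 * ((l : ℝ) + 1)) ^ (r + 1) := by
              apply mul_le_mul_of_nonneg_left _ (by positivity)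
              apply pow_le_pow_left₀ hl.le
              linarith
      have e3 : 4 * ((l : ℝ) + 1) * (Fintype.card B.V : ℝ) ≤
          (1 + δ / 2) * (4 * ((l : ℝ) + 1)) ^ (r + 1) := by
        calc 4 * ((l : ℝ) + 1) * (Fintype.card B.V : ℝ)
            ≤ 4 * ((l : ℝ) + 1) * ((1 + δ / 2) * (4 * ((l : ℝ) + 1)) ^ r) := by
              apply mul_le_mul_of_nonneg_left hBV (by positivity)
          _ = (1 + δ / 2) * (4 * ((l : ℝ) + 1)) ^ (r + 1) := by ring
      linarith
    · rw [Block.step_Ω, hBJ]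
      have hcb : (0 : ℝ) < (Nat.centralBinom (l + 1) : ℝ) := by
        exact_mod_cast Nat.centralBinom_pos (l + 1)
      have hΩ : (0 : ℝ) < (Fintype.card B.Ω : ℝ) := by exact_mod_cast hBΩ
      push_cast
      rw [Real.logb_mul (by positivity) (by positivity), Real.logb_pow, Real.logb_pow,
        Real.logb_mul hcb.ne' (by positivity), Real.logb_pow,
        Real.logb_self_eq_one (by norm_num)]
      push_cast
      have e1 := logb_centralBinom l
      have e2 : (3 - δ / 2) * ((l : ℝ) + 1) ≤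
          Real.logb 2 (Nat.centralBinom (l + 1)) + (l : ℝ) * 1 := by
        linarith
      have e3 : ((l : ℝ) + 1) ^ r * ((3 - δ / 2) * ((l : ℝ) + 1)) ≤
          ((l : ℝ) + 1) ^ r * (Real.logb 2 (Nat.centralBinom (l + 1)) + (l : ℝ) * 1) :=
        mul_le_mul_of_nonneg_left e2 (by positivity)
      have e4 : 4 * ((l : ℝ) + 1) * ((1 - (1 / 4) ^ r - δ / 2) * (4 * ((l : ℝ) + 1)) ^ r) ≤
          4 * ((l : ℝ) + 1) * Real.logb 2 (Fintype.card B.Ω) :=
        mul_le_mul_of_nonneg_left hBL (by positivity)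
      have e5 : (1 - (1 / 4) ^ (r + 1) - δ) * (4 * ((l : ℝ) + 1)) ^ (r + 1) ≤
          4 * ((l : ℝ) + 1) * ((1 - (1 / 4) ^ r - δ / 2) * (4 * ((l : ℝ) + 1)) ^ r) +
          ((l : ℝ) + 1) ^ r * ((3 - δ / 2) * ((l : ℝ) + 1)) := by
        have f1 : ((l : ℝ) + 1) ^ r * ((3 - δ / 2) * ((l : ℝ) + 1)) =
            (3 - δ / 2) * ((1 / 4) ^ (r + 1) * (4 * ((l : ℝ) + 1)) ^ (r + 1)) := by
          rw [← mul_pow]
          have : (1 / 4 * (4 * ((l : ℝ) + 1))) = (l : ℝ) + 1 := by ring
          rw [this]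
          ring
        have f2 : 4 * ((l : ℝ) + 1) * ((1 - (1 / 4) ^ r - δ / 2) * (4 * ((l : ℝ) + 1)) ^ r) =
            (1 - 4 * (1 / 4) ^ (r + 1) - δ / 2) * (4 * ((l : ℝ) + 1)) ^ (r + 1) := by
          ring
        rw [f1, f2]
        have f3 : (0 : ℝ) ≤ (4 * ((l : ℝ) + 1)) ^ (r + 1) := by positivity
        have f4 : ((1 : ℝ) / 4) ^ (r + 1) ≤ 1 := pow_le_one₀ (by norm_num) (by norm_num)
        have f5 : (δ / 2) * (((1 : ℝ) / 4) ^ (r + 1) * (4 * ((l : ℝ) + 1)) ^ (r + 1)) ≤
            (δ / 2) * (1 * (4 * ((l : ℝ) + 1)) ^ (r + 1)) := by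
          apply mul_le_mul_of_nonneg_left _ (by positivity)
          exact mul_le_mul_of_nonneg_right f4 f3
        nlinarith
      linarith

/-- interleaving teeth and fillers of the final combs. -/
def swapH (J B : Type) : (J × B) ⊕ (J × B) ≃ J × (B × Fin 2) where
  toFun
    | Sum.inl (j, t) => (j, (t, 0))
    | Sum.inr (j, t) => (j, (t, 1))
  invFun
    | (j, (t, s)) => if s = 0 then Sum.inl (j, t) else Sum.inr (j, t)
  left_inv := by rintro (⟨j, t⟩ | ⟨j, t⟩) <;> simp
  right_inv := by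
    rintro ⟨j, t, s⟩
    fin_cases s <;> simp

/-- the final arrangement: the word, then all combs with their holes filled. -/
noncomputable def finl {V J : Type} [Fintype J] {N b : ℕ} (loc : V ≃ Fin N ⊕ (J × Fin b)) :
    (V ⊕ (J × Fin b)) ≃ Fin (N + Fintype.card J * (b * 2)) :=
  (Equiv.sumCongr loc (Equiv.refl (J × Fin b))).trans ((Equiv.sumAssoc _ _ _).trans
    ((Equiv.sumCongr (Equiv.refl (Fin N)) ((swapH J (Fin b)).trans
      ((Equiv.prodCongr (Fintype.equivFin J) finProdFinEquiv).trans finProdFinEquiv))).trans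
        finSumFinEquiv))

section final

variable {V J W : Type} [Fintype J] {N b : ℕ}

lemma finl_word (loc : V ≃ Fin N ⊕ (J × Fin b)) (v : V) (i : Fin N) (h : loc v = Sum.inl i) :
    (finl loc (Sum.inl v) : ℕ) = i := by
  simp [finl, h]

lemma finl_tooth (loc : V ≃ Fin N ⊕ (J × Fin b)) (v : V) (j : J) (t : Fin b)
    (h : loc v = Sum.inr (j, t)) :
    (finl loc (Sum.inl v) : ℕ) = N + (2 * t + (b * 2) * (Fintype.equivFin J j)) := by
  simp [finl, h, swapH]

lemma finl_fill (loc : V ≃ Fin N ⊕ (J × Fin b)) (j : J) (t : Fin b) :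
    (finl loc (Sum.inr (j, t)) : ℕ) = N + (1 + 2 * t + (b * 2) * (Fintype.equivFin J j)) := by
  simp [finl, swapH]

lemma finl_good (loc : V ≃ Fin N ⊕ (J × Fin b)) (g : V ⊕ (J × Fin b) ≃ W) :
    Good (fun w => ((finl loc (g.symm w) : ℕ) : ℤ)) := by
  constructor
  · intro w w' h
    simp only [Nat.cast_inj] at h
    have := (finl loc).injective (Fin.ext h)
    exact g.symm.injective this
  · intro u v z h1 h2
    simp only at h1 h2
    have h3 := (finl loc (g.symm v)).isLt
    have h4 : z.toNat < N + Fintype.card J * (b * 2) := by omega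
    refine ⟨g ((finl loc).symm ⟨z.toNat, h4⟩), ?_⟩
    simp
    omega

lemma finl_compat (loc : V ≃ Fin N ⊕ (J × Fin b)) (g : V ⊕ (J × Fin b) ≃ W) :
    Compat loc (fun w => ((finl loc (g.symm w) : ℕ) : ℤ)) (fun v => g (Sum.inl v)) := by
  refine ⟨⟨0, ?_⟩, ?_⟩
  · intro v i h
    simp only [Equiv.symm_apply_apply]
    rw [finl_word loc v i h]
    simp
  · intro j
    refine ⟨N + (((b * 2) * (Fintype.equivFin J j) : ℕ) : ℤ), 1, Or.inl rfl, ?_, ?_⟩
    · intro v t h
      simp only [Equiv.symm_apply_apply]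
      rw [finl_tooth loc v j t h]
      push_cast
      ring
    · intro t ht v h
      simp only [Equiv.symm_apply_apply] at h
      have h1 := finl_fill loc j ⟨t, by omega⟩
      have h2 : finl loc (Sum.inl v) = finl loc (Sum.inr (j, ⟨t, by omega⟩)) := by
        apply Fin.ext
        rw [h1]
        zify
        rw [h]
        push_cast
        ring
      have h3 := (finl loc).injective h2
      cases h3

end final

/-- There is a family of `w` Hamiltonian paths on `n` vertices, pairwise `C_{2k+1}`-different. -/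
def Fam (k n w : ℕ) : Prop :=
  ∃ (Ω : Type) (_ : Fintype Ω) (e : Ω → (Fin n ≃ Fin n)), Fintype.card Ω = w ∧
    ∀ ω ω', ω ≠ ω' → Cyc k (fun v => ((e ω v : ℕ) : ℤ)) (fun v => ((e ω' v : ℕ) : ℤ))

lemma fam_of_block {k : ℕ} (B : Block k) :
    Fam k (Fintype.card B.V + Fintype.card B.J * B.b) (Fintype.card B.Ω) := by
  classical
  have hc : Fintype.card (B.V ⊕ (B.J × Fin B.b)) = Fintype.card B.V + Fintype.card B.J * B.b := by
    simp
  set g : B.V ⊕ (B.J × Fin B.b) ≃ Fin (Fintype.card B.V + Fintype.card B.J * B.b) :=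
    Fintype.equivFinOfCardEq hc with hg
  have hN : ∀ ω : B.Ω, B.N + Fintype.card B.J * (B.b * 2) =
      Fintype.card B.V + Fintype.card B.J * B.b := by
    intro ω
    have := Fintype.card_congr (finl (B.loc ω))
    rw [hc, Fintype.card_fin] at this
    exact this.symm
  refine ⟨B.Ω, inferInstance, fun ω => g.symm.trans ((finl (B.loc ω)).trans (finCongr (hN ω))),
    rfl, ?_⟩
  intro ω ω' hne
  have h1 := B.sep ω ω' hne (Fin (Fintype.card B.V + Fintype.card B.J * B.b))
    (fun w => ((finl (B.loc ω) (g.symm w) : ℕ) : ℤ))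
    (fun w => ((finl (B.loc ω') (g.symm w) : ℕ) : ℤ)) (fun v => g (Sum.inl v))
    (finl_good _ _) (finl_good _ _) (fun v v' h => by simpa using h)
    (finl_compat _ _) (finl_compat _ _)
  simpa using h1

lemma Cyc.map {k : ℕ} {W W' : Type} (pos1 pos2 : W → ℤ) (pos1' pos2' : W' → ℤ) (f : W → W')
    (hf : Function.Injective f) (c1 c2 : ℤ) (h1 : ∀ w, pos1' (f w) = pos1 w + c1)
    (h2 : ∀ w, pos2' (f w) = pos2 w + c2) (h : Cyc k pos1 pos2) : Cyc k pos1' pos2' := by
  unfold Cyc at *
  refine h.trans ⟨⟨⟨f, ?_⟩, hf⟩⟩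
  intro u v huv
  rcases huv with (h | h) | (h | h)
  · left; left
    rw [h1, h1]
    omega
  · left; right
    rw [h1, h1]
    omega
  · right; left
    rw [h2, h2]
    omega
  · right; right
    rw [h2, h2]
    omega

lemma Fam.add {k a b w w' : ℕ} (h : Fam k a w) (h' : Fam k b w') : Fam k (a + b) (w * w') := by
  obtain ⟨Ω, hΩ, e, hc, he⟩ := h
  obtain ⟨Ω', hΩ', e', hc', he'⟩ := h'
  refine ⟨Ω × Ω', inferInstance,
    fun x => finSumFinEquiv.symm.trans ((Equiv.sumCongr (e x.1) (e' x.2)).trans finSumFinEquiv),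
    by rw [Fintype.card_prod, hc, hc'], ?_⟩
  rintro ⟨x, y⟩ ⟨x', y'⟩ hne
  by_cases hx : x = x'
  · have hy : y ≠ y' := by
      rintro rfl
      exact hne (by rw [hx])
    apply Cyc.map _ _ _ _ (Fin.natAdd a) (Fin.natAdd_injective b a) a a ?_ ?_ (he' y y' hy)
    · intro w
      simp
      ring
    · intro w
      simp
      ring
  · apply Cyc.map _ _ _ _ (Fin.castAdd b) (Fin.castAdd_injective a b) 0 0 ?_ ?_ (he x x' hx)
    · intro w
      simp
    · intro w
      simp

lemma Fam.one (k n : ℕ) : Fam k n 1 :=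
  ⟨Unit, inferInstance, fun _ => Equiv.refl _, rfl, fun a b h => absurd (Subsingleton.elim a b) h⟩

lemma Fam.pow {k a w : ℕ} (h : Fam k a w) (q : ℕ) : Fam k (a * q) (w ^ q) := by
  induction q with
  | zero => simpa using Fam.one k 0
  | succ q ih =>
    rw [Nat.mul_succ, pow_succ]
    exact ih.add h

/-- `P` is a Hamiltonian path on `[n]` (a path and its reversal are the same graph). -/
def IsHamPath {n : ℕ} (P : SimpleGraph (Fin n)) : Prop := Nonempty (pathGraph n ≃g P)

/-- `F` is a family of Hamiltonian paths on `[n]` any two distinct members of which are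
`C_{2k+1}`-different. -/
def IsFamily (k n : ℕ) (F : Finset (SimpleGraph (Fin n))) : Prop :=
  (∀ P ∈ F, IsHamPath P) ∧
    ∀ P ∈ F, ∀ Q ∈ F, P ≠ Q → (cycleGraph (2 * k + 1)) ⊑ (P ⊔ Q)

/-- the largest size of such a family. -/
noncomputable def M (k n : ℕ) : ℕ := sSup {m | ∃ F, IsFamily k n F ∧ F.card = m}

lemma IsHamPath.exists_color {n : ℕ} {P : SimpleGraph (Fin n)} (h : IsHamPath P) :
    ∃ c : Fin n → Bool, ∀ u v, P.Adj u v → c u ≠ c v := by
  obtain ⟨e⟩ := h
  refine ⟨fun v => pathGraph.bicoloring n (e.symm v), ?_⟩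
  intro u v huv
  exact (pathGraph.bicoloring n).valid (e.symm.map_adj_iff.2 huv)

lemma not_contained_of_color {n k : ℕ} (hk : 1 ≤ k) (G : SimpleGraph (Fin n)) (c : Fin n → Bool)
    (hc : ∀ u v, G.Adj u v → c u ≠ c v) : ¬ (cycleGraph (2 * k + 1)) ⊑ G := by
  rintro ⟨φ⟩
  have h1 : G.Coloring Bool := Coloring.mk c (fun {u v} h => hc u v h)
  have h2 : (cycleGraph (2 * k + 1)).Coloring Bool := h1.comp φ.toHom
  have h3 : (cycleGraph (2 * k + 1)).Colorable 2 := h2.colorable
  have h4 := chromaticNumber_cycleGraph_of_odd (2 * k + 1) (by omega) ⟨k, rfl⟩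
  have h5 := chromaticNumber_le_iff_colorable.2 h3
  rw [h4] at h5
  exact absurd h5 (by decide)

lemma IsFamily.card_le {k n : ℕ} (hk : 1 ≤ k) {F : Finset (SimpleGraph (Fin n))}
    (hF : IsFamily k n F) : F.card ≤ 2 ^ n := by
  classical
  choose! c hc using fun P (hP : P ∈ F) => (hF.1 P hP).exists_color
  have hinj : Set.InjOn c (F : Set (SimpleGraph (Fin n))) := by
    intro P hP Q hQ hPQ
    by_contra hne
    apply not_contained_of_color hk (P ⊔ Q) (c P) _ (hF.2 P hP Q hQ hne)
    rintro u v (h | h)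
    · exact hc P hP u v h
    · rw [hPQ]
      exact hc Q hQ u v h
  have h1 := Finset.card_le_card_of_injOn (t := (Finset.univ : Finset (Fin n → Bool))) c
    (fun P _ => Finset.mem_univ _) hinj
  simpa using h1

lemma bdd_family {k n : ℕ} (hk : 1 ≤ k) : BddAbove {m | ∃ F, IsFamily k n F ∧ F.card = m} := by
  refine ⟨2 ^ n, ?_⟩
  rintro m ⟨F, hF, rfl⟩
  exact hF.card_le hk

lemma M_le {k n : ℕ} (hk : 1 ≤ k) : M k n ≤ 2 ^ n := by
  apply csSup_le
  · exact ⟨0, ∅, ⟨by simp, by simp⟩, rfl⟩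
  · rintro m ⟨F, hF, rfl⟩
    exact hF.card_le hk

lemma le_M_of_fam {k n w : ℕ} (hk : 1 ≤ k) (h : Fam k n w) : w ≤ M k n := by
  classical
  obtain ⟨Ω, hΩ, e, hc, he⟩ := h
  have hpg : ∀ ω, pg (fun v => ((e ω v : ℕ) : ℤ)) = (pathGraph n).comap (e ω) := by
    intro ω
    ext u v
    rw [comap_adj, pathGraph_adj]
    change (((e ω v : ℕ) : ℤ) = ((e ω u : ℕ) : ℤ) + 1 ∨ ((e ω u : ℕ) : ℤ) =
      ((e ω v : ℕ) : ℤ) + 1) ↔ _
    constructor
    · rintro (h | h)
      · left; omega
      · right; omega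
    · rintro (h | h)
      · left; omega
      · right; omega
  have hham : ∀ ω, IsHamPath (pg (fun v => ((e ω v : ℕ) : ℤ))) := by
    intro ω
    rw [hpg]
    exact ⟨(Iso.comap (e ω) (pathGraph n)).symm⟩
  have hinj : Function.Injective (fun ω => pg (fun v => ((e ω v : ℕ) : ℤ))) := by
    intro ω ω' h
    by_contra hne
    have h1 := he ω ω' hne
    unfold Cyc at h1
    simp only at h
    rw [← h, sup_idem] at h1
    obtain ⟨c, hcc⟩ := (hham ω).exists_color
    exact not_contained_of_color hk _ c hcc h1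
  apply le_csSup (bdd_family hk)
  refine ⟨Finset.univ.image (fun ω => pg (fun v => ((e ω v : ℕ) : ℤ))), ⟨?_, ?_⟩, ?_⟩
  · intro P hP
    obtain ⟨ω, -, rfl⟩ := Finset.mem_image.1 hP
    exact hham ω
  · intro P hP Q hQ hne
    obtain ⟨ω, -, rfl⟩ := Finset.mem_image.1 hP
    obtain ⟨ω', -, rfl⟩ := Finset.mem_image.1 hQ
    apply he
    rintro rfl
    exact hne rfl
  · rw [Finset.card_image_of_injective _ hinj, Finset.card_univ, hc]

open Filter in
/-- families of asymptotically optimal rate. -/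
lemma exists_fam {k : ℕ} (hk : 1 ≤ k) (ε : ℝ) (hε : 0 < ε) (hε1 : ε < 1) :
    ∃ n w : ℕ, 1 ≤ n ∧ 1 ≤ w ∧ Fam k n w ∧ (1 - ε) * n ≤ Real.logb 2 w := by
  obtain ⟨r, hr⟩ := exists_pow_lt_of_lt_one (show (0 : ℝ) < ε / 4 by positivity)
    (show (1 / 2 : ℝ) < 1 by norm_num)
  obtain ⟨l, B, hb, hJ, hΩ, hV, hL⟩ := (exists_block hk r (ε / 4) (by positivity)).exists
  refine ⟨_, _, ?_, hΩ, fam_of_block B, ?_⟩
  · have h1 : 0 < Fintype.card B.J * B.b := by
      rw [hJ]
      have := B.hb
      positivity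
    omega
  · refine le_trans ?_ hL
    push_cast
    rw [hJ, hb]
    push_cast
    have hl : (0 : ℝ) < (l : ℝ) + 1 := by positivity
    set T : ℝ := (4 * ((l : ℝ) + 1)) ^ r with hT
    have hT0 : 0 < T := by positivity
    have e1 : ((l : ℝ) + 1) ^ r * 2 ^ r = (1 / 2) ^ r * T := by
      rw [hT, ← mul_pow, ← mul_pow]
      congr 1
      ring
    rw [e1]
    have e2 : ((1 : ℝ) / 4) ^ r ≤ (1 / 2) ^ r := by
      apply pow_le_pow_left₀ (by norm_num) (by norm_num)
    have e3 : ((Fintype.card B.V : ℝ) + (1 / 2) ^ r * T) ≤ (1 + ε / 2) * T := by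
      nlinarith
    have e4 : (1 - ε) * ((Fintype.card B.V : ℝ) + (1 / 2) ^ r * T) ≤
        (1 - ε) * ((1 + ε / 2) * T) := mul_le_mul_of_nonneg_left e3 (by linarith)
    have e5 : (1 - ε / 2) * T ≤ (1 - (1 / 4) ^ r - ε / 4) * T := by
      apply mul_le_mul_of_nonneg_right _ hT0.le
      linarith
    have e6 : (1 - ε) * ((1 + ε / 2) * T) ≤ (1 - ε / 2) * T := by
      nlinarith [mul_pos hε hT0, mul_pos (mul_pos hε hε) hT0]
    linarith

open Filter in
lemma lower {k : ℕ} (hk : 1 ≤ k) (ε : ℝ) (hε : 0 < ε) (hε1 : ε < 1) :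
    ∀ᶠ n : ℕ in atTop, (1 - ε) * n ≤ Real.logb 2 (M k n) := by
  obtain ⟨n₀, w₀, hn₀, hw₀, hfam, hlog⟩ := exists_fam hk (ε / 2) (by positivity) (by linarith)
  have hn₀' : (0 : ℝ) < n₀ := by exact_mod_cast hn₀
  have hev : ∀ᶠ n : ℕ in atTop, (n₀ : ℝ) ≤ (ε / 2) * n :=
    (Tendsto.const_mul_atTop (by positivity) tendsto_natCast_atTop_atTop).eventually_ge_atTop _
  filter_upwards [hev] with n hn
  have hfam2 : Fam k n (w₀ ^ (n / n₀)) := by
    have h1 := (hfam.pow (n / n₀)).add (Fam.one k (n % n₀))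
    rwa [Nat.div_add_mod, mul_one] at h1
  have h1 : (w₀ ^ (n / n₀) : ℕ) ≤ M k n := le_M_of_fam hk hfam2
  have hw₀' : (0 : ℝ) < w₀ := by exact_mod_cast hw₀
  have h2 : Real.logb 2 ((w₀ : ℝ) ^ (n / n₀)) ≤ Real.logb 2 (M k n) := by
    apply Real.logb_le_logb_of_le (by norm_num) (by positivity)
    exact_mod_cast h1
  rw [Real.logb_pow] at h2
  have h3 : (n : ℝ) - n₀ ≤ (n₀ : ℝ) * ((n / n₀ : ℕ) : ℝ) := by
    have h4 := Nat.div_add_mod n n₀
    have h5 := Nat.mod_lt n hn₀
    have h6 : n ≤ n₀ * (n / n₀) + n₀ := by omega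
    have h7 : (n : ℝ) ≤ (n₀ : ℝ) * ((n / n₀ : ℕ) : ℝ) + n₀ := by exact_mod_cast h6
    linarith
  have h8 : ((n / n₀ : ℕ) : ℝ) * ((1 - ε / 2) * n₀) ≤
      ((n / n₀ : ℕ) : ℝ) * Real.logb 2 w₀ := mul_le_mul_of_nonneg_left hlog (by positivity)
  have h9 : (1 - ε / 2) * ((n : ℝ) - n₀) ≤ (1 - ε / 2) * ((n₀ : ℝ) * ((n / n₀ : ℕ) : ℝ)) :=
    mul_le_mul_of_nonneg_left h3 (by linarith)
  have h10 : (1 - ε) * (n : ℝ) ≤ (1 - ε / 2) * ((n : ℝ) - n₀) := by
    nlinarith
  linarith

open Filter in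
lemma tendsto_rate {k : ℕ} (hk : 1 ≤ k) :
    Tendsto (fun n : ℕ => Real.logb 2 (M k n) / n) atTop (nhds 1) := by
  rw [Metric.tendsto_atTop']
  intro ε hε
  have h1 := lower hk (min (ε / 2) (1 / 2)) (by positivity) (by
    exact lt_of_le_of_lt (min_le_right _ _) (by norm_num))
  obtain ⟨N, hN⟩ := (h1.and (eventually_gt_atTop 0)).exists_forall_of_atTop
  refine ⟨N, ?_⟩
  intro n hn
  obtain ⟨h2, h3⟩ := hN n hn.le
  have hn0 : (0 : ℝ) < n := by exact_mod_cast h3
  have hM0 : 0 < M k n := Nat.lt_of_lt_of_le Nat.one_pos (le_M_of_fam hk (Fam.one k n))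
  have hM0' : (0 : ℝ) < M k n := by exact_mod_cast hM0
  have h4 : Real.logb 2 (M k n) ≤ n := by
    rw [Real.logb_le_iff_le_rpow (by norm_num) hM0']
    have := M_le (n := n) hk
    rw [Real.rpow_natCast]
    exact_mod_cast this
  have h5 : Real.logb 2 (M k n) / n ≤ 1 := by
    rw [div_le_one hn0]
    exact h4
  have h6 : 1 - ε / 2 ≤ Real.logb 2 (M k n) / n := by
    rw [le_div_iff₀ hn0]
    refine le_trans ?_ h2
    apply mul_le_mul_of_nonneg_right _ hn0.le
    have := min_le_left (ε / 2) (1 / 2)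
    linarith
  rw [Real.dist_eq, abs_lt]
  constructor <;> linarith


open Filter in
/-- **Main theorem.**  For every `k ≥ 1` (in particular for every `k > 1`) we have
`M k n ≥ 2 ^ (n - o(n))`; more precisely `(1/n) log₂ (M k n) → 1`.  The last part records that
`M k n` really is the largest size of such a family. -/
theorem result (k : ℕ) (hk : 1 ≤ k) :
    (∀ ε : ℝ, 0 < ε → ∀ᶠ n : ℕ in atTop, (2 : ℝ) ^ ((1 - ε) * (n : ℝ)) ≤ (M k n : ℝ)) ∧
    (1 : ℝ) ≤ liminf (fun n : ℕ => (1 / (n : ℝ)) * Real.logb 2 (M k n)) atTop ∧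
    Tendsto (fun n : ℕ => Real.logb 2 (M k n) / n) atTop (nhds 1) ∧
    ∀ n : ℕ, (∃ F, IsFamily k n F ∧ F.card = M k n) ∧ ∀ F, IsFamily k n F → F.card ≤ M k n := by
  have hpos : ∀ n, 0 < M k n := fun n =>
    Nat.lt_of_lt_of_le Nat.one_pos (le_M_of_fam hk (Fam.one k n))
  have hpos' : ∀ n, (0 : ℝ) < M k n := fun n => by exact_mod_cast hpos n
  refine ⟨?_, ?_, tendsto_rate hk, ?_⟩
  · intro ε hε
    by_cases hε1 : ε < 1
    · filter_upwards [lower hk ε hε hε1] with n hn
      rwa [← Real.le_logb_iff_rpow_le (by norm_num) (hpos' n)]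
    · filter_upwards with n
      have h1 : (2 : ℝ) ^ ((1 - ε) * (n : ℝ)) ≤ 1 := by
        apply Real.rpow_le_one_of_one_le_of_nonpos (by norm_num)
        apply mul_nonpos_of_nonpos_of_nonneg _ (Nat.cast_nonneg n)
        linarith [not_lt.1 hε1]
      have h2 : (1 : ℝ) ≤ M k n := by exact_mod_cast hpos n
      linarith
  · have h1 : (fun n : ℕ => (1 / (n : ℝ)) * Real.logb 2 (M k n)) =
        fun n : ℕ => Real.logb 2 (M k n) / n := by
      funext n
      ring
    rw [h1, (tendsto_rate hk).liminf_eq]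
  · intro n
    refine ⟨?_, ?_⟩
    · have hne : {m | ∃ F, IsFamily k n F ∧ F.card = m}.Nonempty :=
        ⟨0, ∅, ⟨by simp, by simp⟩, rfl⟩
      exact Nat.sSup_mem hne (bdd_family hk)
    · intro F hF
      exact le_csSup (bdd_family hk) ⟨F, hF, rfl⟩

end Pool.Agent.Results.MP_e797aa_co.OddCycleHam
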